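import Pool.Agent.H62.Cp3

set_option autoImplicit false

namespace Pool.Agent.Results.MP_fdcf9c_lc.NotOne

open Pool.Agent.H62.Cp

theorem result (C : Set ℕ) (hC : Cohesive C) (F K : Type) [Field F] [Field K] [Algebra F K]
    (A : CField F) (B : CField K) (h : CompEmb A B)
    (hsep : ∀ x : K, IsAlgebraic F x → IsSeparable F x) : powTrdeg h C ≠ 1 :=
  main h hC hsep

end Pool.Agent.Results.MP_fdcf9c_lc.NotOne
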